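import Pool.Agent.Lib_MP_1dc66a_gt.Main
import Pool.Agent.Lib_MP_1dc66a_gt.Nerve
import Pool.Agent.Lib_MP_1dc66a_gt.ScSphere

set_option autoImplicit false

open Set Topology

namespace Pool.Agent.Results.MP_1dc66a_gt.AllSpheres

/-- `X` is a compact polyhedron: it is homeomorphic to the geometric realisation (the union of the
simplices) of a finite simplicial complex in some Euclidean space. -/
def IsCompactPolyhedron (X : Type) [TopologicalSpace X] : Prop :=
  ∃ (d : ℕ) (K : Geometry.SimplicialComplex ℝ (EuclideanSpace ℝ (Fin d))),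
    K.faces.Finite ∧ Nonempty (X ≃ₜ ↥K.space)

/-- `Z` is a continuum: a nonempty compact connected metrizable space. -/
def IsContinuum (Z : Type) [TopologicalSpace Z] : Prop :=
  CompactSpace Z ∧ ConnectedSpace Z ∧ TopologicalSpace.MetrizableSpace Z

/-- The subset `K` of `Z` is a subcontinuum: it is nonempty, compact and connected. -/
def IsSubcontinuum {Z : Type} [TopologicalSpace Z] (K : Set Z) : Prop :=
  IsCompact K ∧ IsConnected K

/-- `K` is indecomposable: it is not the union of two proper subcontinua. -/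
def Indecomposable {Z : Type} [TopologicalSpace Z] (K : Set Z) : Prop :=
  ¬ ∃ A B : Set Z, IsSubcontinuum A ∧ IsSubcontinuum B ∧ A ≠ K ∧ B ≠ K ∧ A ∪ B = K

/-- `Z` is a hereditarily indecomposable continuum: a continuum all of whose subcontinua are
indecomposable. -/
def IsHereditarilyIndecomposable (Z : Type) [TopologicalSpace Z] : Prop :=
  IsContinuum Z ∧ ∀ K : Set Z, IsSubcontinuum K → Indecomposable K

/-- The inverse limit of the sequence `X 0 ← X 1 ← X 2 ← ...` with the bonding maps `P n`, with the
topology of a subspace of the product. -/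
abbrev InverseLimit {X : ℕ → Type} [∀ n, TopologicalSpace (X n)] (P : ∀ n, C(X (n + 1), X n)) :
    Type :=
  {x : ∀ n, X n // ∀ n, P n (x (n + 1)) = x n}

open Pool.Agent.Lib_MP_1dc66a_gt in
lemma nested {X : ℕ → Type} [∀ n, TopologicalSpace (X n)] {P : ∀ n, C(X (n + 1), X n)}
    (h : ∀ K : Set (InverseLimit P), IsSubcontinuum K → Indecomposable K) :
    ∀ A B : Set (∀ n, X n), A ⊆ lim P → B ⊆ lim P → IsCompact A → IsConnected A →
      IsCompact B → IsConnected B → (A ∩ B).Nonempty → A ⊆ B ∨ B ⊆ A := by
  intro A B hA hB cA kA cB kB hAB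
  have himg : ∀ S : Set (∀ n, X n), S ⊆ lim P →
      (Subtype.val : InverseLimit P → ∀ n, X n) '' (Subtype.val ⁻¹' S) = S := by
    intro S hS
    ext x
    constructor
    · rintro ⟨y, hy, rfl⟩
      exact hy
    · intro hx
      exact ⟨⟨x, hS hx⟩, hx, rfl⟩
  have hsub : ∀ S : Set (∀ n, X n), S ⊆ lim P → IsCompact S → IsConnected S →
      IsSubcontinuum ((Subtype.val : InverseLimit P → ∀ n, X n) ⁻¹' S) := by
    intro S hS c k
    refine ⟨?_, ?_, ?_⟩
    · have hi : Topology.IsEmbedding (Subtype.val : InverseLimit P → ∀ n, X n) :=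
        Topology.IsEmbedding.subtypeVal
      refine hi.isCompact_iff.2 ?_
      rw [himg S hS]
      exact c
    · obtain ⟨x, hx⟩ := k.nonempty
      exact ⟨⟨x, hS hx⟩, hx⟩
    · have hi : Topology.IsInducing (Subtype.val : InverseLimit P → ∀ n, X n) :=
        Topology.IsInducing.subtypeVal
      refine hi.isPreconnected_image.1 ?_
      rw [himg S hS]
      exact k.isPreconnected
  have hU : A ∪ B ⊆ lim P := union_subset hA hB
  have h1 := h _ (hsub (A ∪ B) hU (cA.union cB) (kA.union hAB kB))
  by_contra hcon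
  push Not at hcon
  apply h1
  refine ⟨Subtype.val ⁻¹' A, Subtype.val ⁻¹' B, hsub A hA cA kA, hsub B hB cB kB, ?_, ?_, ?_⟩
  · intro he
    apply hcon.2
    intro x hx
    have : (⟨x, hB hx⟩ : InverseLimit P) ∈ (Subtype.val ⁻¹' (A ∪ B) : Set (InverseLimit P)) :=
      Or.inr hx
    rw [← he] at this
    exact this
  · intro he
    apply hcon.1
    intro x hx
    have : (⟨x, hA hx⟩ : InverseLimit P) ∈ (Subtype.val ⁻¹' (A ∪ B) : Set (InverseLimit P)) :=
      Or.inl hx
    rw [← he] at this
    exact this
  · rfl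

open Pool.Agent.Lib_MP_1dc66a_gt in
lemma sc_sphere_ge (m : ℕ) (hm : 2 ≤ m) :
    SC ↥(Metric.sphere (0 : EuclideanSpace ℝ (Fin (m + 1))) 1) := by
  have hfr : Fact (Module.finrank ℝ (EuclideanSpace ℝ (Fin (m + 1))) = m + 1) := ⟨by simp⟩
  let v : Metric.sphere (0 : EuclideanSpace ℝ (Fin (m + 1))) 1 :=
    ⟨EuclideanSpace.single 0 1, by simp⟩
  have hv : v ≠ -v := by
    intro h
    have h1 := congrArg
      (fun w : Metric.sphere (0 : EuclideanSpace ℝ (Fin (m + 1))) 1 =>
        (w : EuclideanSpace ℝ (Fin (m + 1))) 0) h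
    simp [v] at h1
    linarith
  have hs1 := stereographic'_source (n := m) v
  have hs2 := stereographic'_source (n := m) (-v)
  have ht1 := stereographic'_target (n := m) v
  have hpl : SC (EuclideanSpace ℝ (Fin m)) := sc_of_simplyConnected _
  refine sc_glue hpl (stereographic' m v) (stereographic' m (-v)) ht1
    (stereographic'_target _) ?_ ?_
  · rw [hs1, hs2]
    ext x
    simp only [mem_union, mem_compl_iff, mem_singleton_iff, mem_univ, iff_true]
    by_contra hcon
    push Not at hcon
    exact hv (hcon.1.symm.trans hcon.2)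
  · have himg : (stereographic' m v).source ∩ (stereographic' m (-v)).source =
        (stereographic' m v).symm '' ({(stereographic' m v) (-v)}ᶜ) := by
      ext x
      rw [hs2]
      constructor
      · rintro ⟨hx1, hx2⟩
        refine ⟨stereographic' m v x, ?_, (stereographic' m v).left_inv hx1⟩
        intro h
        apply hx2
        have hnv : (-v) ∈ (stereographic' m v).source := by
          rw [hs1]
          exact fun h => hv h.symm
        exact (stereographic' m v).injOn hx1 hnv h
      · rintro ⟨y, hy, rfl⟩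
        have hyt : y ∈ (stereographic' m v).target := by rw [ht1]; exact mem_univ _
        refine ⟨(stereographic' m v).map_target hyt, ?_⟩
        intro h
        apply hy
        rw [mem_singleton_iff] at h ⊢
        rw [← h, (stereographic' m v).right_inv hyt]
    rw [himg]
    have hconn : IsConnected ({(stereographic' m v) (-v)}ᶜ : Set (EuclideanSpace ℝ (Fin m))) := by
      apply isConnected_compl_singleton_of_one_lt_rank
      rw [← Module.finrank_eq_rank]
      simp
      omega
    refine hconn.isPreconnected.image _ ?_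
    exact (stereographic' m v).continuousOn_symm.mono (by rw [ht1]; exact subset_univ _)

/-- Let `X 0 ← X 1 ← X 2 ← ...` be an inverse sequence of compact polyhedra whose inverse limit is
a hereditarily indecomposable continuum, let `m ≥ 2` and let `F n : S^m → X n` be continuous maps
such that `F n` is homotopic to `P n ∘ F (n+1)` for all `n`. Then every `F n` is null-homotopic. -/
theorem result (m : ℕ) (hm : 2 ≤ m) (X : ℕ → Type) [∀ n, TopologicalSpace (X n)]
    (hX : ∀ n, IsCompactPolyhedron (X n)) (P : ∀ n, C(X (n + 1), X n))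
    (hL : IsHereditarilyIndecomposable (InverseLimit P))
    (F : ∀ n, C(Metric.sphere (0 : EuclideanSpace ℝ (Fin (m + 1))) 1, X n))
    (hF : ∀ n, (F n).Homotopic ((P n).comp (F (n + 1)))) :
    ∀ n, (F n).Nullhomotopic := by
  intro n
  have hc : ∀ n, CompactSpace (X n) := by
    intro n
    obtain ⟨d, K, hfin, ⟨e⟩⟩ := hX n
    have hK : IsCompact K.space := by
      unfold Geometry.SimplicialComplex.space
      exact hfin.isCompact_biUnion fun t _ => t.finite_toSet.isCompact_convexHull (𝕜 := ℝ)
    have := isCompact_iff_compactSpace.1 hK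
    exact e.symm.compactSpace
  have ht : ∀ n, T2Space (X n) := by
    intro n
    obtain ⟨d, K, hfin, ⟨e⟩⟩ := hX n
    exact e.isEmbedding.t2Space
  have hconn : ConnectedSpace ↥(Metric.sphere (0 : EuclideanSpace ℝ (Fin (m + 1))) 1) := by
    refine isConnected_iff_connectedSpace.1 (isConnected_sphere ?_ 0 zero_le_one)
    rw [rank_eq_card_basis (EuclideanSpace.basisFun (Fin (m + 1)) ℝ).toBasis]
    simp
    omega
  obtain ⟨d, K, hfin, ⟨e⟩⟩ := hX n
  obtain ⟨l, V, _, K', u, ψ, hψ⟩ := Pool.Agent.Lib_MP_1dc66a_gt.nerve_dom K.space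
    ⟨hfin.toFinset, by simp [Geometry.SimplicialComplex.space]⟩
  let E : C(X n, ↥K.space) := ⟨e, e.continuous⟩
  let E' : C(↥K.space, X n) := ⟨e.symm, e.symm.continuous⟩
  have hEE : E'.comp E = ContinuousMap.id _ := by ext x; exact e.symm_apply_apply x
  obtain ⟨N, φ, h1, h2⟩ := Pool.Agent.Lib_MP_1dc66a_gt.exists_tower P (nested hL.2) F hF l n
    (fun y => K'.typ ((u.comp E) y).1)
    (fun i => (Pool.Agent.Lib_MP_1dc66a_gt.typ_cont K' i).comp
      (continuous_subtype_val.comp (u.comp E).continuous))
    (fun y i => Pool.Agent.Lib_MP_1dc66a_gt.typ_nonneg K' ((u.comp E) y).2 i)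
    (fun y => Pool.Agent.Lib_MP_1dc66a_gt.typ_sum K' ((u.comp E) y).2)
  have h3 := h2.comap (F N)
  obtain ⟨c, hc⟩ := Pool.Agent.Lib_MP_1dc66a_gt.null_of_tower (sc_sphere_ge m hm) l K'
    ((u.comp E).comp (φ.comp (F N))) h3
  refine ⟨E' (ψ c), ?_⟩
  have hid : ((E'.comp ψ).comp (u.comp E)).Homotopic (ContinuousMap.id (X n)) := by
    have h5 : (E'.comp ((ψ.comp u).comp E)).Homotopic (E'.comp ((ContinuousMap.id _).comp E)) :=
      (ContinuousMap.Homotopic.refl E').comp (hψ.comp (ContinuousMap.Homotopic.refl E))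
    have h6 : E'.comp ((ContinuousMap.id _).comp E) = ContinuousMap.id (X n) := by
      rw [ContinuousMap.id_comp]; exact hEE
    rw [h6] at h5
    exact h5
  have h4 : (F n).Homotopic (((E'.comp ψ).comp (u.comp E)).comp (F n)) :=
    (hid.symm).comp (ContinuousMap.Homotopic.refl (F n))
  have h5 : (((E'.comp ψ).comp (u.comp E)).comp (F n)).Homotopic
      (((E'.comp ψ).comp (u.comp E)).comp (φ.comp (F N))) :=
    (ContinuousMap.Homotopic.refl _).comp h1
  have h6 : ((E'.comp ψ).comp ((u.comp E).comp (φ.comp (F N)))).Homotopic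
      ((E'.comp ψ).comp (ContinuousMap.const _ c)) :=
    (ContinuousMap.Homotopic.refl (E'.comp ψ)).comp hc
  exact h4.trans (h5.trans h6)

end Pool.Agent.Results.MP_1dc66a_gt.AllSpheres
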